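import Pool.Agent.Helper76.T3.StU
import Pool.Agent.Helper10.W3.M_Trq

/-!
# Project T3, module DIMES3: the dimension of `antiE3S` by fixed points
-/

set_option autoImplicit false

namespace Pool.Agent.Helper92.T3

open Pool.Agent.Helper76.T3 Pool.Agent.Helper14.T3 Pool.Agent.Helper14.W3 Pool.Agent.Helper78.W3

/-- the four conditions -/
private def Cnd (σ τ : ℤ) {n : ℕ} (t : ZMod n) (F : ZMod n → ZMod n → ℂ) : Prop :=
  ∀ x y, F x y + F (x + t) y + F (x + 2 * t) y = 0 ∧ F x y + F x (y + t) + F x (y + 2 * t) = 0 ∧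
    F (-y) (-x) = (σ : ℂ) * F x y ∧ F (-x) (-y) = (τ : ℂ) * F x y

/-- the double average with the weights `2/3, -1/3, -1/3` -/
private noncomputable def Av {n : ℕ} (t : ZMod n) (F : ZMod n → ZMod n → ℂ) (x y : ZMod n) : ℂ :=
  2 / 3 * (2 / 3 * F x y + -1 / 3 * F x (y + t) + -1 / 3 * F x (y + 2 * t)) +
  -1 / 3 * (2 / 3 * F (x + t) y + -1 / 3 * F (x + t) (y + t) + -1 / 3 * F (x + t) (y + 2 * t)) +
  -1 / 3 * (2 / 3 * F (x + 2 * t) y + -1 / 3 * F (x + 2 * t) (y + t)
    + -1 / 3 * F (x + 2 * t) (y + 2 * t))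

private lemma av_x {n : ℕ} (t : ZMod n) (h3 : 3 * t = 0) (F : ZMod n → ZMod n → ℂ) (x y : ZMod n) :
    Av t F x y + Av t F (x + t) y + Av t F (x + 2 * t) y = 0 := by
  have e1 : x + t + t = x + 2 * t := by ring
  have e2 : x + t + 2 * t = x := by linear_combination h3
  have e3 : x + 2 * t + t = x := by linear_combination h3
  have e4 : x + 2 * t + 2 * t = x + t := by linear_combination h3
  unfold Av
  rw [e1, e2, e3, e4]
  ring

private lemma av_y {n : ℕ} (t : ZMod n) (h3 : 3 * t = 0) (F : ZMod n → ZMod n → ℂ) (x y : ZMod n) :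
    Av t F x y + Av t F x (y + t) + Av t F x (y + 2 * t) = 0 := by
  have e1 : y + t + t = y + 2 * t := by ring
  have e2 : y + t + 2 * t = y := by linear_combination h3
  have e3 : y + 2 * t + t = y := by linear_combination h3
  have e4 : y + 2 * t + 2 * t = y + t := by linear_combination h3
  unfold Av
  rw [e1, e2, e3, e4]
  ring

private lemma av_1 {n : ℕ} (t : ZMod n) (h3 : 3 * t = 0) (F : ZMod n → ZMod n → ℂ) (x y : ZMod n) :
    Av t F (-y) (-x) = Av t (fun a b => F (-b) (-a)) x y := by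
  have e1 : -(y + t) = -y + 2 * t := by linear_combination -h3
  have e2 : -(y + 2 * t) = -y + t := by linear_combination -h3
  have e3 : -(x + t) = -x + 2 * t := by linear_combination -h3
  have e4 : -(x + 2 * t) = -x + t := by linear_combination -h3
  unfold Av
  simp only [e1, e2, e3, e4]
  ring

private lemma av_2 {n : ℕ} (t : ZMod n) (h3 : 3 * t = 0) (F : ZMod n → ZMod n → ℂ) (x y : ZMod n) :
    Av t F (-x) (-y) = Av t (fun a b => F (-a) (-b)) x y := by
  have e1 : -(y + t) = -y + 2 * t := by linear_combination -h3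
  have e2 : -(y + 2 * t) = -y + t := by linear_combination -h3
  have e3 : -(x + t) = -x + 2 * t := by linear_combination -h3
  have e4 : -(x + 2 * t) = -x + t := by linear_combination -h3
  unfold Av
  simp only [e1, e2, e3, e4]
  ring

private lemma av_id (σ τ : ℤ) {n : ℕ} (t : ZMod n) (F : ZMod n → ZMod n → ℂ) (hF : Cnd σ τ t F) (x y : ZMod n) :
    Av t F x y = F x y := by
  have h1 := (hF x y).1
  have h2 := (hF x (y + t)).1
  have h3 := (hF x (y + 2 * t)).1
  have h4 := (hF x y).2.1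
  unfold Av
  linear_combination (-2 / 9 : ℂ) * h1 + (1 / 9 : ℂ) * h2 + (1 / 9 : ℂ) * h3 + (-1 / 3 : ℂ) * h4

/-- the projection -/
private noncomputable def Pr (σ τ : ℤ) {n : ℕ} (t : ZMod n) (F : ZMod n → ZMod n → ℂ)
    (x y : ZMod n) : ℂ :=
  1 / 4 * Av t F x y + (σ : ℂ) / 4 * Av t (fun a b => F (-b) (-a)) x y
    + (τ : ℂ) / 4 * Av t (fun a b => F (-a) (-b)) x y
    + (σ : ℂ) * (τ : ℂ) / 4 * Av t (fun a b => F b a) x y

private lemma pr_mem (σ τ : ℤ) (hσ : (σ : ℂ) * σ = 1) (hτ : (τ : ℂ) * τ = 1) {n : ℕ} (t : ZMod n)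
    (h3 : 3 * t = 0) (F : ZMod n → ZMod n → ℂ) : Cnd σ τ t (Pr σ τ t F) := by
  intro x y
  refine ⟨?_, ?_, ?_, ?_⟩
  · unfold Pr
    linear_combination (1 / 4 : ℂ) * av_x t h3 F x y
      + ((σ : ℂ) / 4) * av_x t h3 (fun a b => F (-b) (-a)) x y
      + ((τ : ℂ) / 4) * av_x t h3 (fun a b => F (-a) (-b)) x y
      + ((σ : ℂ) * (τ : ℂ) / 4) * av_x t h3 (fun a b => F b a) x y
  · unfold Pr
    linear_combination (1 / 4 : ℂ) * av_y t h3 F x y
      + ((σ : ℂ) / 4) * av_y t h3 (fun a b => F (-b) (-a)) x y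
      + ((τ : ℂ) / 4) * av_y t h3 (fun a b => F (-a) (-b)) x y
      + ((σ : ℂ) * (τ : ℂ) / 4) * av_y t h3 (fun a b => F b a) x y
  · unfold Pr
    rw [av_1 t h3 F, av_1 t h3 (fun a b => F (-b) (-a)), av_1 t h3 (fun a b => F (-a) (-b)),
      av_1 t h3 (fun a b => F b a)]
    simp only [neg_neg]
    generalize Av t F x y = p1
    generalize Av t (fun a b => F (-b) (-a)) x y = p2
    generalize Av t (fun a b => F (-a) (-b)) x y = p3
    generalize Av t (fun a b => F b a) x y = p4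
    linear_combination (-(1 / 4 : ℂ) * p2 - (τ : ℂ) / 4 * p4) * hσ
  · unfold Pr
    rw [av_2 t h3 F, av_2 t h3 (fun a b => F (-b) (-a)), av_2 t h3 (fun a b => F (-a) (-b)),
      av_2 t h3 (fun a b => F b a)]
    simp only [neg_neg]
    generalize Av t F x y = p1
    generalize Av t (fun a b => F (-b) (-a)) x y = p2
    generalize Av t (fun a b => F (-a) (-b)) x y = p3
    generalize Av t (fun a b => F b a) x y = p4
    linear_combination (-(1 / 4 : ℂ) * p3 - (σ : ℂ) / 4 * p4) * hτ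

private lemma pr_id (σ τ : ℤ) (hσ : (σ : ℂ) * σ = 1) (hτ : (τ : ℂ) * τ = 1) {n : ℕ} (t : ZMod n)
    (F : ZMod n → ZMod n → ℂ) (hF : Cnd σ τ t F) (x y : ZMod n) : Pr σ τ t F x y = F x y := by
  have e1 : (fun a b => F (-b) (-a)) = fun a b => (σ : ℂ) * F a b := by
    funext a b
    exact (hF a b).2.2.1
  have e2 : (fun a b => F (-a) (-b)) = fun a b => (τ : ℂ) * F a b := by
    funext a b
    exact (hF a b).2.2.2
  have e3 : (fun a b => F b a) = fun a b => (σ : ℂ) * (τ : ℂ) * F a b := by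
    funext a b
    have h1 := (hF (-a) (-b)).2.2.1
    rw [neg_neg, neg_neg] at h1
    rw [h1, (hF a b).2.2.2]
    ring
  have e4 : ∀ c : ℂ, Av t (fun a b => c * F a b) x y = c * Av t F x y := by
    intro c
    unfold Av
    ring
  unfold Pr
  rw [e1, e2, e3, e4, e4, e4, av_id σ τ t F hF]
  linear_combination (F x y / 4) * hσ + (F x y / 4) * hτ +
    (F x y / 4) * ((τ : ℂ) * τ * hσ + hτ)

/-! ### fixed points -/

private def tau {n : ℕ} (t : ZMod n) : Fin 3 → ZMod n := ![0, t, 2 * t]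

private noncomputable def wt : Fin 3 → ℂ := ![2 / 3, -1 / 3, -1 / 3]

private noncomputable def sn (σ τ : ℤ) : Fin 4 → ℂ :=
  ![1 / 4, (σ : ℂ) / 4, (τ : ℂ) / 4, (σ : ℂ) * (τ : ℂ) / 4]

private def gg {n : ℕ} : Fin 4 → ZMod n × ZMod n → ZMod n × ZMod n :=
  ![fun p => p, fun p => (-p.2, -p.1), fun p => (-p.1, -p.2), fun p => (p.2, p.1)]

private def ac {n : ℕ} (t : ZMod n) (h : Fin 4 × Fin 3 × Fin 3) (p : ZMod n × ZMod n) :
    ZMod n × ZMod n := gg h.1 (p.1 + tau t h.2.1, p.2 + tau t h.2.2)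

private noncomputable def co (σ τ : ℤ) (h : Fin 4 × Fin 3 × Fin 3) : ℂ :=
  sn σ τ h.1 * (wt h.2.1 * wt h.2.2)

private lemma sum_eq (σ τ : ℤ) {n : ℕ} (t : ZMod n) (F : ZMod n × ZMod n → ℂ)
    (p : ZMod n × ZMod n) :
    ∑ h : Fin 4 × Fin 3 × Fin 3, co σ τ h * F (ac t h p) =
      Pr σ τ t (fun x y => F (x, y)) p.1 p.2 := by
  rw [Fintype.sum_prod_type]
  simp only [Fintype.sum_prod_type, Fin.sum_univ_succ, Fin.sum_univ_zero, Fin.isValue]
  simp [co, ac, gg, tau, wt, sn, Pr, Av]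
  ring

private lemma c0 {n : ℕ} [NeZero n] (a b : ZMod n) :
    (Finset.univ.filter fun p : ZMod n × ZMod n => (p.1 + a, p.2 + b) = p).card
      = if a = 0 ∧ b = 0 then n ^ 2 else 0 := by
  split_ifs with h
  · obtain ⟨rfl, rfl⟩ := h
    have : (Finset.univ.filter fun p : ZMod n × ZMod n => (p.1 + 0, p.2 + 0) = p)
        = Finset.univ := by
      ext p
      simp
    rw [this, Finset.card_univ, Fintype.card_prod, ZMod.card]
    ring
  · rw [Finset.card_eq_zero, Finset.filter_eq_empty_iff]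
    intro p _ hp
    apply h
    have h1 := congrArg Prod.fst hp
    have h2 := congrArg Prod.snd hp
    simp only at h1 h2
    exact ⟨by linear_combination h1, by linear_combination h2⟩

private lemma c1 {n : ℕ} [NeZero n] (a b : ZMod n) :
    (Finset.univ.filter fun p : ZMod n × ZMod n => (-(p.2 + b), -(p.1 + a)) = p).card
      = if a = b then n else 0 := by
  split_ifs with h
  · subst h
    have : (Finset.univ.filter fun p : ZMod n × ZMod n => (-(p.2 + a), -(p.1 + a)) = p)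
        = Finset.univ.image fun y : ZMod n => (-(y + a), y) := by
      ext p
      simp only [Finset.mem_filter, Finset.mem_univ, true_and, Finset.mem_image]
      constructor
      · intro hp
        have h1 := congrArg Prod.fst hp
        simp only at h1
        exact ⟨p.2, Prod.ext h1 rfl⟩
      · rintro ⟨y, rfl⟩
        refine Prod.ext rfl ?_
        simp only
        ring
    rw [this, Finset.card_image_of_injective, Finset.card_univ, ZMod.card]
    intro y y' hyy
    exact congrArg Prod.snd hyy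
  · rw [Finset.card_eq_zero, Finset.filter_eq_empty_iff]
    intro p _ hp
    apply h
    have h1 := congrArg Prod.fst hp
    have h2 := congrArg Prod.snd hp
    simp only at h1 h2
    linear_combination h1 - h2

private lemma c2 {n : ℕ} [NeZero n] (hh : ∃ h : ZMod n, 2 * h = 1) (a b : ZMod n) :
    (Finset.univ.filter fun p : ZMod n × ZMod n => (-(p.1 + a), -(p.2 + b)) = p).card = 1 := by
  obtain ⟨h, hh⟩ := hh
  have : (Finset.univ.filter fun p : ZMod n × ZMod n => (-(p.1 + a), -(p.2 + b)) = p)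
      = {(-(h * a), -(h * b))} := by
    ext p
    simp only [Finset.mem_filter, Finset.mem_univ, true_and, Finset.mem_singleton]
    constructor
    · intro hp
      have h1 := congrArg Prod.fst hp
      have h2 := congrArg Prod.snd hp
      simp only at h1 h2
      refine Prod.ext ?_ ?_
      · simp only
        linear_combination (-h) * h1 - p.1 * hh
      · simp only
        linear_combination (-h) * h2 - p.2 * hh
    · intro hp
      rw [hp]
      refine Prod.ext ?_ ?_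
      · simp only
        linear_combination a * hh
      · simp only
        linear_combination b * hh
  rw [this, Finset.card_singleton]

private lemma c3 {n : ℕ} [NeZero n] (a b : ZMod n) :
    (Finset.univ.filter fun p : ZMod n × ZMod n => (p.2 + b, p.1 + a) = p).card
      = if a + b = 0 then n else 0 := by
  split_ifs with h
  · have : (Finset.univ.filter fun p : ZMod n × ZMod n => (p.2 + b, p.1 + a) = p)
        = Finset.univ.image fun y : ZMod n => (y + b, y) := by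
      ext p
      simp only [Finset.mem_filter, Finset.mem_univ, true_and, Finset.mem_image]
      constructor
      · intro hp
        have h1 := congrArg Prod.fst hp
        simp only at h1
        exact ⟨p.2, Prod.ext h1 rfl⟩
      · rintro ⟨y, rfl⟩
        refine Prod.ext rfl ?_
        simp only
        linear_combination h
    rw [this, Finset.card_image_of_injective, Finset.card_univ, ZMod.card]
    intro y y' hyy
    exact congrArg Prod.snd hyy
  · rw [Finset.card_eq_zero, Finset.filter_eq_empty_iff]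
    intro p _ hp
    apply h
    have h1 := congrArg Prod.fst hp
    have h2 := congrArg Prod.snd hp
    simp only at h1 h2
    linear_combination h1 + h2

private lemma cnt (σ τ : ℤ) {n : ℕ} [NeZero n] (t : ZMod n) (h1 : t ≠ 0) (h2 : 2 * t ≠ 0) (h3 : 3 * t = 0)
    (hh : ∃ h : ZMod n, 2 * h = 1) :
    ∑ h : Fin 4 × Fin 3 × Fin 3, co σ τ h *
      ((Finset.univ.filter fun p : ZMod n × ZMod n => ac t h p = p).card : ℂ) =
      (n : ℂ) ^ 2 / 9 + (n : ℂ) * ((σ : ℂ) * (1 + (τ : ℂ))) / 6 := by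
  have k1 : ∀ i j : Fin 3, (Finset.univ.filter fun p : ZMod n × ZMod n => ac t (0, i, j) p = p).card
      = if tau t i = 0 ∧ tau t j = 0 then n ^ 2 else 0 := fun i j => c0 (tau t i) (tau t j)
  have k2 : ∀ i j : Fin 3, (Finset.univ.filter fun p : ZMod n × ZMod n => ac t (1, i, j) p = p).card
      = if tau t i = tau t j then n else 0 := fun i j => c1 (tau t i) (tau t j)
  have k3 : ∀ i j : Fin 3, (Finset.univ.filter fun p : ZMod n × ZMod n => ac t (2, i, j) p = p).card
      = 1 := fun i j => c2 hh (tau t i) (tau t j)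
  have k4 : ∀ i j : Fin 3, (Finset.univ.filter fun p : ZMod n × ZMod n => ac t (3, i, j) p = p).card
      = if tau t i + tau t j = 0 then n else 0 := fun i j => c3 (tau t i) (tau t j)
  have t0 : tau t 0 = 0 := rfl
  have t1 : tau t 1 = t := rfl
  have t2 : tau t 2 = 2 * t := rfl
  have n1 : t ≠ 2 * t := fun h => h1 (by linear_combination -h)
  have n2 : t + t ≠ 0 := fun h => h2 (by linear_combination h)
  have n3 : t + 2 * t = 0 := by linear_combination h3
  have n4 : 2 * t + t = 0 := by linear_combination h3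
  have n5 : 2 * t + 2 * t ≠ 0 := fun h => h1 (by linear_combination h - h3)
  have w0 : wt 0 = 2 / 3 := rfl
  have w1 : wt 1 = -1 / 3 := rfl
  have w2 : wt 2 = -1 / 3 := rfl
  have s0 : sn σ τ 0 = 1 / 4 := rfl
  have s1 : sn σ τ 1 = (σ : ℂ) / 4 := rfl
  have s2 : sn σ τ 2 = (τ : ℂ) / 4 := rfl
  have s3 : sn σ τ 3 = (σ : ℂ) * (τ : ℂ) / 4 := rfl
  rw [Fintype.sum_prod_type]
  simp only [Fintype.sum_prod_type]
  rw [Fin.sum_univ_four]
  simp only [k1, k2, k3, k4, Fin.sum_univ_three, t0, t1, t2, co, w0, w1, w2, s0, s1, s2, s3,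
    zero_add, add_zero]
  simp only [h1, h2, h1.symm, h2.symm, n1, n1.symm, n2, n3, n4, n5, and_self, and_true,
    and_false, if_true, if_false]
  push_cast
  ring

private lemma main (σ τ : ℤ) (hσ : (σ : ℂ) * σ = 1) (hτ : (τ : ℂ) * τ = 1) (hTrq : S3Trq) {n : ℕ} [NeZero n] (t : ZMod n) (h1 : t ≠ 0) (h2 : 2 * t ≠ 0)
    (h3 : 3 * t = 0) (hh : ∃ h : ZMod n, 2 * h = 1) (W : Submodule ℂ (ZMod n → ZMod n → ℂ))
    (hW : ∀ F, F ∈ W ↔ Cnd σ τ t F) :
    (Module.finrank ℂ W : ℂ) = (n : ℂ) ^ 2 / 9 + (n : ℂ) * ((σ : ℂ) * (1 + (τ : ℂ))) / 6 := by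
  have hE : Module.finrank ℂ
      (W.map ((LinearEquiv.curry ℂ ℂ (ZMod n) (ZMod n)).symm :
        (ZMod n → ZMod n → ℂ) →ₗ[ℂ] (ZMod n × ZMod n → ℂ))) = Module.finrank ℂ W :=
    LinearEquiv.finrank_map_eq (LinearEquiv.curry ℂ ℂ (ZMod n) (ZMod n)).symm W
  have hmem : ∀ F : ZMod n × ZMod n → ℂ, F ∈ W.map ((LinearEquiv.curry ℂ ℂ (ZMod n) (ZMod n)).symm :
        (ZMod n → ZMod n → ℂ) →ₗ[ℂ] (ZMod n × ZMod n → ℂ)) ↔ Cnd σ τ t (fun x y => F (x, y)) := by
    intro F
    rw [← hW]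
    constructor
    · rintro ⟨G, hG, rfl⟩
      exact hG
    · intro hF
      exact ⟨fun x y => F (x, y), hF, rfl⟩
  rw [← hE, hTrq (ZMod n × ZMod n) _ _ (Fin 4 × Fin 3 × Fin 3) _ (ac t) (co σ τ) _ ?_ ?_]
  · exact cnt σ τ t h1 h2 h3 hh
  · intro F
    rw [hmem]
    have : (fun x y : ZMod n => ∑ h : Fin 4 × Fin 3 × Fin 3, co σ τ h * F (ac t h (x, y)))
        = Pr σ τ t (fun x y => F (x, y)) := by
      funext x y
      exact sum_eq σ τ t F (x, y)
    show Cnd σ τ t (fun x y : ZMod n => ∑ h : Fin 4 × Fin 3 × Fin 3, co σ τ h * F (ac t h (x, y)))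
    rw [this]
    exact pr_mem σ τ hσ hτ t h3 _
  · intro F hF p
    rw [hmem] at hF
    rw [sum_eq]
    exact pr_id σ τ hσ hτ t _ hF p.1 p.2

private lemma sq (s : ℤ) (h : Pool.Agent.Helper76.TX.Sg s) : (s : ℂ) * s = 1 := by
  rcases h with h | h <;> rw [h] <;> norm_num

/-- **Module DIMES3.** -/
theorem hDimES3 : DimES3 := by
  intro σ τ k hσ hτ hk
  obtain ⟨e, rfl⟩ : ∃ e, k = e + 2 := ⟨k - 2, by omega⟩
  have hq : NeZero (3 ^ (e + 2 - 1)) := ⟨by positivity⟩
  have hpow : 3 ^ (e + 2 - 1) = 3 * 3 ^ (e + 2 - 2) := by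
    have : e + 2 - 1 = (e + 2 - 2) + 1 := by omega
    rw [this, pow_succ]
    ring
  have hpos : 0 < 3 ^ (e + 2 - 2) := by positivity
  have hz : ∀ m : ℕ, (m : ZMod (3 ^ (e + 2 - 1))) = 0 ↔ 3 ^ (e + 2 - 1) ∣ m :=
    fun m => ZMod.natCast_eq_zero_iff m _
  have h1 : ((3 : ZMod (3 ^ (e + 2 - 1))) ^ (e + 2 - 2)) ≠ 0 := by
    intro h
    have h' : ((3 ^ (e + 2 - 2) : ℕ) : ZMod (3 ^ (e + 2 - 1))) = 0 := by
      push_cast
      exact h
    rw [hz] at h'
    have := Nat.le_of_dvd hpos h'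
    omega
  have h2 : 2 * ((3 : ZMod (3 ^ (e + 2 - 1))) ^ (e + 2 - 2)) ≠ 0 := by
    intro h
    have h' : ((2 * 3 ^ (e + 2 - 2) : ℕ) : ZMod (3 ^ (e + 2 - 1))) = 0 := by
      push_cast
      exact h
    rw [hz] at h'
    have := Nat.le_of_dvd (by omega) h'
    omega
  have h3 : 3 * ((3 : ZMod (3 ^ (e + 2 - 1))) ^ (e + 2 - 2)) = 0 := by
    have h' : ((3 * 3 ^ (e + 2 - 2) : ℕ) : ZMod (3 ^ (e + 2 - 1))) = 0 := by
      rw [hz, ← hpow]
    push_cast at h'
    exact h'
  have hh : ∃ h : ZMod (3 ^ (e + 2 - 1)), 2 * h = 1 := by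
    have hc : Nat.Coprime 2 (3 ^ (e + 2 - 1)) := Nat.Coprime.pow_right _ (by norm_num)
    refine ⟨((2 : ℕ) : ZMod (3 ^ (e + 2 - 1)))⁻¹, ?_⟩
    have := ZMod.coe_mul_inv_eq_one 2 hc
    push_cast at this
    push_cast
    exact this
  have hm := main σ τ (sq σ hσ) (sq τ hτ) Pool.Agent.Helper10.W3.hTrq ((3 : ZMod (3 ^ (e + 2 - 1))) ^ (e + 2 - 2)) h1 h2 h3 hh (antiE3S (e + 2) σ τ)
    (fun F => Iff.rfl)
  have h9 : 2 * (((3 ^ (e + 2 - 1) : ℕ) : ℂ) ^ 2 / 9 +
      ((3 ^ (e + 2 - 1) : ℕ) : ℂ) * ((σ : ℂ) * (1 + (τ : ℂ))) / 6) =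
      ((2 * 9 ^ (e + 2 - 2) + 3 ^ (e + 2 - 2) * (σ * (1 + τ)) : ℤ) : ℂ) := by
    rw [hpow]
    push_cast
    have h9' : (9 : ℂ) ^ e = (3 ^ e) ^ 2 := by
      rw [← pow_mul, mul_comm e 2, pow_mul]
      norm_num
    rw [h9']
    ring
  rw [← hm] at h9
  exact_mod_cast h9

end Pool.Agent.Helper92.T3
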